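import Mathlib

/-!
Integer sequences `T` with `T 0 = 1`, `2 ≤ T 1` and `2 T(m+n) T(n) = T(m+2n) + T(m)`
(the abscissas of the powers of a Pell solution), and the equation
`z^2 = T(q+i)^2 - T(q)^2 + 1`.
-/

namespace Pool.Agent.Helper626.PellIdx

section
variable {T : ℕ → ℤ}

theorem growth (h0 : T 0 = 1) (h1 : 2 ≤ T 1)
    (hmul : ∀ m n, 2 * T (m + n) * T n = T (m + 2 * n) + T m) (n : ℕ) :
    1 ≤ T n ∧ 2 * T n ≤ T (n + 1) := by
  induction n with
  | zero => rw [h0]; exact ⟨le_refl _, by simpa using h1⟩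
  | succ k ih =>
    have h := hmul k 1
    have e : k + 2 * 1 = k + 1 + 1 := by ring
    rw [e] at h
    refine ⟨by linarith [ih.1, ih.2], ?_⟩
    nlinarith [ih.1, ih.2, h1]

theorem three (h0 : T 0 = 1) (h1 : 2 ≤ T 1)
    (hmul : ∀ m n, 2 * T (m + n) * T n = T (m + 2 * n) + T m) (n : ℕ) :
    3 * T (n + 1) ≤ T (n + 2) := by
  have g := growth h0 h1 hmul n
  have h := hmul n 1
  have e : n + 2 * 1 = n + 2 := by ring
  rw [e] at h
  nlinarith [g.1, g.2, h1]

theorem mono (h0 : T 0 = 1) (h1 : 2 ≤ T 1)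
    (hmul : ∀ m n, 2 * T (m + n) * T n = T (m + 2 * n) + T m) {m n : ℕ} (h : m ≤ n) :
    T m ≤ T n := by
  have : Monotone T := monotone_nat_of_le_succ (fun k => by
    have g := growth h0 h1 hmul k
    linarith [g.1, g.2])
  exact this h

theorem two (h0 : T 0 = 1)
    (hmul : ∀ m n, 2 * T (m + n) * T n = T (m + 2 * n) + T m) (n : ℕ) :
    T (2 * n) = 2 * T n ^ 2 - 1 := by
  have h := hmul 0 n
  rw [h0] at h
  simp only [zero_add] at h
  linarith

theorem ge_two (h0 : T 0 = 1) (h1 : 2 ≤ T 1)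
    (hmul : ∀ m n, 2 * T (m + n) * T n = T (m + 2 * n) + T m) {n : ℕ} (h : 0 < n) :
    2 ≤ T n := le_trans h1 (mono h0 h1 hmul h)

theorem arA (P Q z : ℤ) (hQ : 2 ≤ Q) (hA : 2 * Q ^ 2 - 1 ≤ P)
    (hz : z ^ 2 = P ^ 2 - Q ^ 2 + 1) : False := by
  have hP : 2 ≤ P := by nlinarith
  have hz2 : |z| ^ 2 = z ^ 2 := sq_abs z
  have hz0 : 0 ≤ |z| := abs_nonneg z
  rw [hz] at hz2
  have hlt : |z| < P := by
    by_contra hcon
    push Not at hcon
    nlinarith
  have h3 : |z| + 1 ≤ P := hlt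
  nlinarith

theorem arB (P R Q t w : ℤ) (hP : 2 ≤ P) (ht : 2 ≤ t)
    (hRid : P * R = Q ^ 2 + t ^ 2 - 1) (hw1 : 1 ≤ w) (hwP : w ≤ P)
    (hz : (P - w) ^ 2 = P ^ 2 - Q ^ 2 + 1) (hip : t ^ 2 < P) (hne : R ≠ 2 * t) :
    w < R ∧ 1 ≤ 2 * w - R ∧ P * (2 * w - R) = w ^ 2 - t ^ 2 := by
  have hstar : P * (2 * w - R) = w ^ 2 - t ^ 2 := by
    linear_combination - hz - hRid
  refine ⟨?_, ?_, hstar⟩
  · by_contra hcon
    push Not at hcon
    have h1 : 0 ≤ P * (w - R) := mul_nonneg (by linarith) (by linarith)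
    have h2 : 0 ≤ w * (P - w) := mul_nonneg (by linarith) (by linarith)
    have h3 : 0 < t ^ 2 := by positivity
    nlinarith
  · by_contra hcon
    push Not at hcon
    rcases lt_or_eq_of_le (show 2 * w - R ≤ 0 by omega) with h5 | h5
    · have h6 : 0 ≤ P * (-1 - (2 * w - R)) := mul_nonneg (by linarith) (by omega)
      nlinarith [sq_nonneg w]
    · rw [h5] at hstar
      have h6 : (w - t) * (w + t) = 0 := by linear_combination - hstar
      rcases mul_eq_zero.1 h6 with h7 | h7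
      · apply hne; linarith
      · linarith

theorem arC (P R S t δ w : ℤ) (ht : 2 ≤ t) (hS2 : 2 ≤ S) (hP : 2 ≤ P)
    (h2w : 2 * w = R + δ) (hδ1 : 1 ≤ δ) (hw1 : 1 ≤ w)
    (hstar : P * δ = w ^ 2 - t ^ 2) (hwR : w < R)
    (hSid : P * S = R ^ 2 + (2 * t ^ 2 - 1) ^ 2 - 1)
    (ht4 : 24 * t ^ 4 - 24 * t ^ 2 + 3 ≤ P) (hRS9 : 9 * S ≤ R)
    (hRSP : 2 * R * S ≤ P + (2 * t ^ 2 - 1)) :
    4 * δ = S ∧ 8 * R * S + S ^ 2 = 64 * t ^ 4 := by
  have ht2 : 4 ≤ t ^ 2 := by nlinarith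
  have ht44 : 4 * t ^ 4 < P := by nlinarith [mul_self_nonneg (t ^ 2 - 2)]
  have hdd : P * (4 * δ - S) = 2 * R * δ + δ ^ 2 - 4 * t ^ 4 := by
    have hw : w ^ 2 * 4 = (R + δ) ^ 2 := by rw [← h2w]; ring
    linear_combination 4 * hstar - hSid + hw
  have hPpos : 0 < P := by linarith
  have hR2S : R ^ 2 ≤ P * S := by
    have : (0:ℤ) ≤ (2 * t ^ 2 - 1) ^ 2 - 1 := by nlinarith
    linarith
  have hwsq : w ^ 2 < R ^ 2 := by nlinarith
  have hδS : δ < S := by
    have h5 : P * δ < P * S := by nlinarith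
    exact lt_of_mul_lt_mul_left h5 (by linarith)
  have hδ3 : 3 * δ < S := by
    have h5 : 9 * (2 * w) < 10 * R := by linarith
    have h5' : 9 * w < 5 * R := by linarith
    have h6 : 81 * w ^ 2 < 25 * R ^ 2 := by
      have : (9 * w) * (9 * w) < (5 * R) * (5 * R) :=
        mul_self_lt_mul_self (by linarith) h5'
      linarith
    have h7 : P * (81 * δ) < P * (25 * S) := by nlinarith
    have h8 : 81 * δ < 25 * S := lt_of_mul_lt_mul_left h7 (by linarith)
    linarith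
  have hup : 2 * R * δ + δ ^ 2 < P := by
    have hR0 : 0 < R := by linarith
    have h1 : 3 * (R * δ) ≤ R * S := by nlinarith
    have h2 : 9 * δ ^ 2 ≤ S ^ 2 := by nlinarith
    have h3 : 9 * S ^ 2 ≤ R * S := by nlinarith
    nlinarith
  have hlo : -P < 2 * R * δ + δ ^ 2 - 4 * t ^ 4 := by
    have : 0 ≤ R * δ := mul_nonneg (by linarith) (by linarith)
    linarith [sq_nonneg δ]
  have hup2 : 2 * R * δ + δ ^ 2 - 4 * t ^ 4 < P := by
    have : 0 ≤ t ^ 4 := by positivity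
    linarith
  rw [← hdd] at hlo hup2
  have hz1 : 4 * δ - S < 1 := by
    have : P * (4 * δ - S) < P * 1 := by linarith
    exact lt_of_mul_lt_mul_left this (by linarith)
  have hz2 : -1 < 4 * δ - S := by
    have : P * (-1) < P * (4 * δ - S) := by linarith
    exact lt_of_mul_lt_mul_left this (by linarith)
  have hz3 : 4 * δ = S := by omega
  refine ⟨hz3, ?_⟩
  rw [show 4 * δ - S = 0 by linarith] at hdd
  rw [← hz3]
  linear_combination (-16) * hdd

/-- The main exclusion. -/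
theorem core (h0 : T 0 = 1) (h1 : 2 ≤ T 1)
    (hmul : ∀ m n, 2 * T (m + n) * T n = T (m + 2 * n) + T m)
    (i q : ℕ) (hi : 0 < i) (hq : 0 < q) (hr : q ≤ 5 * i) (z : ℤ) :
    z ^ 2 ≠ T (q + i) ^ 2 - T q ^ 2 + 1 := by
  intro hz
  have hmono : ∀ {m n : ℕ}, m ≤ n → T m ≤ T n := fun h => mono h0 h1 hmul h
  have hTi := ge_two h0 h1 hmul hi
  have hTq := ge_two h0 h1 hmul hq
  -- case A
  rcases Nat.lt_or_ge i q with hcase | hcase
  swap
  · have hA : T (2 * q) ≤ T (q + i) := hmono (by omega)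
    rw [two h0 hmul q] at hA
    exact arA _ _ z hTq hA hz
  obtain ⟨r, rfl⟩ : ∃ r, q = i + r := ⟨q - i, by omega⟩
  have hr0 : 0 < r := by omega
  have ep : i + r + i = 2 * i + r := by ring
  rw [ep] at hz
  have hTp : 2 ≤ T (2 * i + r) := ge_two h0 h1 hmul (by omega)
  -- w
  obtain ⟨w, hw⟩ : ∃ w, |z| = T (2 * i + r) - w := ⟨T (2 * i + r) - |z|, by ring⟩
  have hz2 : |z| ^ 2 = z ^ 2 := sq_abs z
  have hz0 : 0 ≤ |z| := abs_nonneg z
  have hwp : w ≤ T (2 * i + r) := by linarith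
  rw [hw, hz] at hz2
  have hw1 : 1 ≤ w := by
    by_contra hcon
    push Not at hcon
    have h5 : T (2 * i + r) ≤ T (2 * i + r) - w := by omega
    nlinarith
  have h2i := two h0 hmul i
  have h2q := two h0 hmul (i + r)
  have hRid : T (2 * i + r) * T r = T (i + r) ^ 2 + T i ^ 2 - 1 := by
    have h := hmul (2 * i) r
    have e : 2 * i + 2 * r = 2 * (i + r) := by ring
    rw [e, h2q, h2i] at h
    linarith
  have hip : T i ^ 2 < T (2 * i + r) := by
    have : T (2 * i) ≤ T (2 * i + r) := hmono (by omega)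
    nlinarith
  have hne : T r ≠ 2 * T i := by
    intro h
    rcases Nat.lt_or_ge i r with h8 | h8
    · have h9 : T (i + 1) ≤ T r := hmono (by omega)
      obtain ⟨i', rfl⟩ : ∃ i', i = i' + 1 := ⟨i - 1, by omega⟩
      have h10 := three h0 h1 hmul i'
      have e : i' + 1 + 1 = i' + 2 := by ring
      rw [e] at h9
      linarith
    · have h9 : T r ≤ T i := hmono h8
      linarith
  obtain ⟨hwR, hδ1, hstar⟩ := arB _ _ _ _ w hTp hTi hRid hw1 hwp hz2 hip hne
  have hpr : T (2 * i + r) < T (2 * r) := by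
    rw [two h0 hmul r]
    have h5 : T (2 * i + r) * 1 ≤ T (2 * i + r) * (2 * w - T r) :=
      mul_le_mul_of_nonneg_left hδ1 (by linarith)
    nlinarith
  have hri : 2 * i < r := by
    by_contra hcon
    push Not at hcon
    have : T (2 * r) ≤ T (2 * i + r) := hmono (by omega)
    linarith
  obtain ⟨n, rfl⟩ : ∃ n, r = 2 * i + n := ⟨r - 2 * i, by omega⟩
  have hn0 : 0 < n := by omega
  have hn2 : n ≤ 2 * i := by omega
  have e4 : 2 * i + (2 * i + n) = 4 * i + n := by ring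
  rw [e4] at hstar hTp
  have h4i : T (4 * i) = 2 * T (2 * i) ^ 2 - 1 := by
    have := two h0 hmul (2 * i)
    rwa [show 2 * (2 * i) = 4 * i by ring] at this
  have hSid : T (4 * i + n) * T n = T (2 * i + n) ^ 2 + (2 * T i ^ 2 - 1) ^ 2 - 1 := by
    have h := hmul (4 * i) n
    have h2r := two h0 hmul (2 * i + n)
    rw [show 4 * i + 2 * n = 2 * (2 * i + n) by ring, h2r, h4i, h2i] at h
    linarith
  have hRS : 2 * T (2 * i + n) * T n = T (2 * i + 2 * n) + T (2 * i) := hmul (2 * i) n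
  have hS2 : 2 ≤ T n := ge_two h0 h1 hmul hn0
  have hle1 : T (2 * i + 2 * n) ≤ T (4 * i + n) := hmono (by omega)
  have hRSP : 2 * T (2 * i + n) * T n ≤ T (4 * i + n) + (2 * T i ^ 2 - 1) := by
    rw [hRS, ← h2i]; linarith
  have hp3 : 3 * T (4 * i) ≤ T (4 * i + n) := by
    obtain ⟨k, hk⟩ : ∃ k, 4 * i = k + 1 := ⟨4 * i - 1, by omega⟩
    have h5 := three h0 h1 hmul k
    have h6 : T (k + 2) ≤ T (4 * i + n) := hmono (by omega)
    rw [hk] at h6 ⊢; linarith
  have ht4 : 24 * T i ^ 4 - 24 * T i ^ 2 + 3 ≤ T (4 * i + n) := by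
    rw [h4i, h2i] at hp3
    linarith [hp3, show 3 * (2 * (2 * T i ^ 2 - 1) ^ 2 - 1) = 24 * T i ^ 4 - 24 * T i ^ 2 + 3 by ring]
  have hRS9 : 9 * T n ≤ T (2 * i + n) := by
    obtain ⟨k, rfl⟩ : ∃ k, n = k + 1 := ⟨n - 1, by omega⟩
    have h5 := three h0 h1 hmul k
    have h6 := three h0 h1 hmul (k + 1)
    have h7 : T (k + 1 + 2) ≤ T (2 * i + (k + 1)) := hmono (by omega)
    have e : k + 1 + 1 = k + 2 := by ring
    rw [e] at h6
    linarith
  obtain ⟨δ, hδ⟩ : ∃ δ, 2 * w = T (2 * i + n) + δ := ⟨2 * w - T (2 * i + n), by ring⟩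
  have hδ1' : 1 ≤ δ := by linarith
  have hstar2 : T (4 * i + n) * δ = w ^ 2 - T i ^ 2 := by
    rw [← hstar]; congr 1; linarith
  obtain ⟨-, hfin⟩ := arC _ _ _ _ δ w hTi hS2 hTp hδ hδ1' hw1 hstar2 hwR hSid ht4 hRS9 hRSP
  have h3i : T (3 * i) = 4 * T i ^ 3 - 3 * T i := by
    have h := hmul i i
    rw [show i + i = 2 * i by ring, show i + 2 * i = 3 * i by ring, h2i] at h
    linarith [h, show 2 * (2 * T i ^ 2 - 1) * T i = 4 * T i ^ 3 - 2 * T i by ring]
  have h3pos : 0 < T (3 * i) := by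
    have := ge_two h0 h1 hmul (show 0 < 3 * i by omega); linarith
  rcases Nat.lt_or_ge i n with hin | hin
  · -- n ≥ i + 1
    have h5 : 3 * T i ≤ T n := by
      obtain ⟨i', rfl⟩ : ∃ i', i = i' + 1 := ⟨i - 1, by omega⟩
      have h10 := three h0 h1 hmul i'
      have : T (i' + 2) ≤ T n := hmono (by omega)
      linarith
    have h6 : 3 * T (3 * i) ≤ T (2 * i + n) := by
      obtain ⟨k, hk⟩ : ∃ k, 3 * i = k + 1 := ⟨3 * i - 1, by omega⟩
      have h10 := three h0 h1 hmul k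
      have : T (k + 2) ≤ T (2 * i + n) := hmono (by omega)
      rw [hk]; linarith
    have h7 : (3 * T (3 * i)) * (3 * T i) ≤ T (2 * i + n) * T n :=
      mul_le_mul h6 h5 (by linarith) (by linarith)
    rw [h3i] at h7
    have h8 : 2 * 2 ≤ T i * T i := mul_self_le_mul_self (by norm_num) hTi
    have h9 : 0 ≤ T i ^ 2 * (T i * T i - 2 * 2) :=
      mul_nonneg (sq_nonneg _) (sub_nonneg.2 h8)
    have h10 : (3 * (4 * T i ^ 3 - 3 * T i)) * (3 * T i) = 36 * T i ^ 4 - 27 * T i ^ 2 := by ring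
    have h11 : T i ^ 2 * (T i * T i - 2 * 2) = T i ^ 4 - 4 * T i ^ 2 := by ring
    have h12 : T i * T i = T i ^ 2 := by ring
    rw [h10] at h7
    rw [h11] at h9
    rw [h12] at h8
    linarith [sq_nonneg (T n)]
  · have h5 : T n ≤ T i := hmono hin
    have h6 : T (2 * i + n) ≤ T (3 * i) := hmono (by omega)
    have h7 : T (2 * i + n) * T n ≤ T (3 * i) * T i :=
      mul_le_mul h6 h5 (by linarith) (by linarith)
    rw [h3i] at h7
    have h9 : T n ^ 2 ≤ T i ^ 2 := pow_le_pow_left₀ (by linarith) h5 2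
    have h10 : 0 < T i ^ 4 := by positivity
    have h11 : (4 * T i ^ 3 - 3 * T i) * T i = 4 * T i ^ 4 - 3 * T i ^ 2 := by ring
    rw [h11] at h7
    linarith [sq_nonneg (T i)]

end

end Pool.Agent.Helper626.PellIdx
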